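import Pool.Agent.W485.FR.Sel

/-!
# FR-LEAVE, FR-DIRECT
-/

namespace FrogRec

open MeasureTheory ProbabilityTheory Filter FrogGW
open scoped ENNReal NNReal Classical Topology

namespace H485

/-- Resampling one coordinate preserves an infinite product measure. -/
lemma infinitePi_update {ι : Type*} [DecidableEq ι] {X : ι → Type*} [∀ i, MeasurableSpace (X i)]
    (μ : ∀ i, Measure (X i)) [∀ i, IsProbabilityMeasure (μ i)] (k : ι) :
    MeasurePreserving (fun p : X k × (∀ i, X i) => Function.update p.2 k p.1)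
      ((μ k).prod (Measure.infinitePi μ)) (Measure.infinitePi μ) := by
  have hm : Measurable (fun p : X k × (∀ i, X i) => Function.update p.2 k p.1) := by
    rw [measurable_pi_iff]
    intro i
    by_cases h : i = k
    · subst h
      simpa using measurable_fst
    · simp only [Function.update_of_ne h]
      exact (measurable_pi_apply i).comp measurable_snd
  refine ⟨hm, ?_⟩
  refine Measure.eq_infinitePi _ fun s t ht => ?_
  rw [Measure.map_apply hm (.pi s.countable_toSet fun _ _ => ht _)]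
  have hpre : (fun p : X k × (∀ i, X i) => Function.update p.2 k p.1) ⁻¹' ((s : Set ι).pi t) =
      (if k ∈ s then t k else Set.univ) ×ˢ (((s.erase k : Finset ι) : Set ι).pi t) := by
    ext p
    simp only [Set.mem_preimage, Set.mem_pi, Finset.mem_coe, Set.mem_prod, Finset.mem_erase]
    constructor
    · intro h
      refine ⟨?_, fun i hi => ?_⟩
      · split_ifs with hk
        · simpa using h k hk
        · exact Set.mem_univ _
      · simpa [Function.update_of_ne hi.1] using h i hi.2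
    · rintro ⟨h1, h2⟩ i hi
      by_cases h : i = k
      · subst h
        rw [if_pos hi] at h1
        simpa using h1
      · simpa [Function.update_of_ne h] using h2 i ⟨h, hi⟩
  rw [hpre, Measure.prod_prod, Measure.infinitePi_pi _ (fun i _ => ht i)]
  by_cases hk : k ∈ s
  · rw [if_pos hk, Finset.mul_prod_erase s (fun i => μ i (t i)) hk]
  · rw [if_neg hk, measure_univ, one_mul, Finset.erase_eq_of_notMem hk]

/-- The same for `WW`. -/
lemma WW_update (ν : ℕ → Measure ℝ≥0) (k : ℕ) :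
    MeasurePreserving (fun p : (ℝ × ℝ≥0) × (ℕ → ℝ × ℝ≥0) => Function.update p.2 k p.1)
      ((unif.prod (pr (ν k))).prod (WW ν)) (WW ν) :=
  infinitePi_update (fun k => unif.prod (pr (ν k))) k

/-- `Sel` depends only on the coordinates in `s`. -/
lemma Sel_congr (a c : ℝ≥0) (κ : ℕ → ℝ≥0) (s : Finset ℕ) (w w' : ℕ → ℝ × ℝ≥0)
    (h : ∀ k ∈ s, w k = w' k) : Sel a c κ s w = Sel a c κ s w' := by
  unfold Sel
  congr 1
  ext t
  simp only [Set.mem_ofPred_eq]
  have e : ∑ k ∈ s, (if (w k).1 ≤ 1 - Real.exp (-((κ k : ℝ) * (t : ℝ))) then (w k).2 else 0) =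
      ∑ k ∈ s, (if (w' k).1 ≤ 1 - Real.exp (-((κ k : ℝ) * (t : ℝ))) then (w' k).2 else 0) :=
    Finset.sum_congr rfl fun k hk => by rw [h k hk]
  rw [e]

lemma meas_Sel' (mu c : ℝ≥0) (κ : ℕ → ℝ≥0) (s : Finset ℕ) (J : ℕ)
    (hc : 0 < c) : Measurable fun w : ℕ → ℝ × ℝ≥0 => Sel (mu + (w J).2) c κ s w := by
  have h := taskSelMeas c κ s hc
  have h2 : Measurable fun w : ℕ → ℝ × ℝ≥0 => ((mu + (w J).2, w) : ℝ≥0 × (ℕ → ℝ × ℝ≥0)) := by
    fun_prop
  exact h.comp h2

lemma meas_cond' (mu c : ℝ≥0) (κ : ℕ → ℝ≥0) (s : Finset ℕ) (J k : ℕ)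
    (hc : 0 < c) : MeasurableSet {w : ℕ → ℝ × ℝ≥0 |
      (w k).1 ≤ 1 - Real.exp (-((κ k : ℝ) * (Sel (mu + (w J).2) c κ s w : ℝ)))} := by
  have h := meas_Sel' mu c κ s J hc
  apply measurableSet_le
  · fun_prop
  · have h' : Measurable fun w : ℕ → ℝ × ℝ≥0 => (Sel (mu + (w J).2) c κ s w : ℝ) :=
      h.coe_nnreal_real
    fun_prop

/-- Integral of a function of the second component of one coordinate. -/
lemma lintegral_WW_snd (ν : ℕ → Measure ℝ≥0) (k : ℕ) (ψ : ℝ≥0 → ℝ≥0∞) (hψ : Measurable ψ) :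
    ∫⁻ w, ψ ((w k).2) ∂(WW ν) = ∫⁻ lam, ψ lam ∂(pr (ν k)) := by
  have h1 : ∫⁻ w, ψ ((w k).2) ∂(WW ν) = ∫⁻ q, ψ q.2 ∂(unif.prod (pr (ν k))) :=
    (measurePreserving_eval_infinitePi (fun k => unif.prod (pr (ν k))) k).lintegral_comp
      (f := fun q : ℝ × ℝ≥0 => ψ q.2) (hψ.comp measurable_snd)
  rw [h1]
  exact (measurePreserving_snd (μ := unif) (ν := pr (ν k))).lintegral_comp hψ

lemma unif_gt (e : ℝ) (h1 : e ≤ 1) :
    unif {x : ℝ | ¬ x ≤ 1 - e} = ENNReal.ofReal e := by
  unfold unif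
  have hm : MeasurableSet {x : ℝ | ¬ x ≤ 1 - e} :=
    (measurableSet_le measurable_id measurable_const).compl
  rw [Measure.restrict_apply hm]
  have : {x : ℝ | ¬ x ≤ 1 - e} ∩ Set.Ico 0 1 = Set.Ioo (1 - e) 1 := by
    ext x
    simp only [not_le, Set.mem_inter_iff, Set.mem_ofPred_eq, Set.mem_Ico, Set.mem_Ioo]
    constructor
    · rintro ⟨h2, h3, h4⟩; exact ⟨h2, h4⟩
    · rintro ⟨h2, h3⟩; exact ⟨h2, by linarith, h3⟩
  rw [this, Real.volume_Ioo]
  congr 1; ring

end H485

open H485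

theorem taskLeave : TaskLeave := by
  refine ⟨?_, ?_⟩
  · intro mu c κ ν s J k ψ hc _ _ hψ
    rw [← lintegral_WW_snd ν k ψ hψ]
    refine lintegral_mono fun w => ?_
    dsimp only
    split_ifs
    · exact le_rfl
    · exact bot_le
  · intro mu c κ ν s J k hc hJ hk
    have hJk : J ≠ k := fun h => hJ (h ▸ hk)
    set S' : (ℕ → ℝ × ℝ≥0) → ℝ≥0 := fun w => Sel (mu + (w J).2) c κ (s.erase k) w with hS'
    have hS'm : Measurable S' := meas_Sel' mu c κ _ J hc
    have hS'r : Measurable fun w => (S' w : ℝ) := hS'm.coe_nnreal_real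
    have e1 : ∫⁻ w, (if (w k).1 ≤ 1 - Real.exp (-((κ k : ℝ) *
        (Sel (mu + (w J).2) c κ s w : ℝ))) then 0 else 1) ∂(WW ν) =
        ∫⁻ w, (if (w k).1 ≤ 1 - Real.exp (-((κ k : ℝ) * (S' w : ℝ))) then (0 : ℝ≥0∞) else 1)
          ∂(WW ν) := by
      refine lintegral_congr fun w => ?_
      have h := taskSelM.2.1 (mu + (w J).2) c κ s w k hc hk
      simp only [hS']
      by_cases hx : (w k).1 ≤ 1 - Real.exp (-((κ k : ℝ) *
        (Sel (mu + (w J).2) c κ s w : ℝ)))
      · rw [if_pos hx, if_pos (h.mp hx)]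
      · rw [if_neg hx, if_neg (fun hy => hx (h.mpr hy))]
    rw [e1]
    have hset : MeasurableSet {w : ℕ → ℝ × ℝ≥0 |
        (w k).1 ≤ 1 - Real.exp (-((κ k : ℝ) * (S' w : ℝ)))} := meas_cond' mu c κ _ J k hc
    have hF : Measurable fun w : ℕ → ℝ × ℝ≥0 =>
        (if (w k).1 ≤ 1 - Real.exp (-((κ k : ℝ) * (S' w : ℝ))) then (0 : ℝ≥0∞) else 1) :=
      Measurable.ite hset measurable_const measurable_const
    rw [← (WW_update ν k).lintegral_comp hF]
    have hup : ∀ (y : ℝ × ℝ≥0) (w : ℕ → ℝ × ℝ≥0), S' (Function.update w k y) = S' w := by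
      intro y w
      simp only [hS']
      rw [Function.update_of_ne hJk]
      refine Sel_congr _ _ _ _ _ _ fun i hi => ?_
      rw [Function.update_of_ne (Finset.ne_of_mem_erase hi)]
    have e2 : ∀ p : (ℝ × ℝ≥0) × (ℕ → ℝ × ℝ≥0),
        (if ((Function.update p.2 k p.1) k).1 ≤ 1 - Real.exp (-((κ k : ℝ) *
          (S' (Function.update p.2 k p.1) : ℝ))) then (0 : ℝ≥0∞) else 1) =
        (if p.1.1 ≤ 1 - Real.exp (-((κ k : ℝ) * (S' p.2 : ℝ))) then (0 : ℝ≥0∞) else 1) := by
      intro p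
      rw [hup, Function.update_self]
    rw [lintegral_congr e2]
    have hG : Measurable fun p : (ℝ × ℝ≥0) × (ℕ → ℝ × ℝ≥0) =>
        (if p.1.1 ≤ 1 - Real.exp (-((κ k : ℝ) * (S' p.2 : ℝ))) then (0 : ℝ≥0∞) else 1) := by
      refine Measurable.ite ?_ measurable_const measurable_const
      apply measurableSet_le
      · fun_prop
      · have : Measurable fun p : (ℝ × ℝ≥0) × (ℕ → ℝ × ℝ≥0) => (S' p.2 : ℝ) :=
          hS'r.comp measurable_snd
        fun_prop
    rw [lintegral_prod_symm' _ hG]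
    refine lintegral_congr fun w => ?_
    dsimp only
    have hGy : ∀ w : ℕ → ℝ × ℝ≥0, ∫⁻ y, (if (y : ℝ × ℝ≥0).1 ≤ 1 - Real.exp (-((κ k : ℝ) *
        (S' w : ℝ))) then (0 : ℝ≥0∞) else 1) ∂(unif.prod (pr (ν k))) =
        unif {x : ℝ | ¬ x ≤ 1 - Real.exp (-((κ k : ℝ) * (S' w : ℝ)))} := by
      intro w
      have hm : MeasurableSet {x : ℝ | ¬ x ≤ 1 - Real.exp (-((κ k : ℝ) * (S' w : ℝ)))} :=
        (measurableSet_le measurable_id measurable_const).compl
      have hgm : Measurable fun x : ℝ => (if x ≤ 1 - Real.exp (-((κ k : ℝ) * (S' w : ℝ)))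
          then (0 : ℝ≥0∞) else 1) :=
        Measurable.ite (measurableSet_le measurable_id measurable_const) measurable_const
          measurable_const
      have h1 := (measurePreserving_fst (μ := unif) (ν := pr (ν k))).lintegral_comp hgm
      rw [h1, ← lintegral_indicator_one hm]
      refine lintegral_congr fun x => ?_
      simp only [Set.indicator_apply, Set.mem_ofPred_eq, Pi.one_apply]
      by_cases hx : x ≤ 1 - Real.exp (-((κ k : ℝ) * (S' w : ℝ)))
      · simp [hx]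
      · rw [if_neg hx, if_pos hx]
    rw [hGy]
    refine unif_gt _ ?_
    rw [Real.exp_le_one_iff]
    have : (0 : ℝ) ≤ (κ k : ℝ) * (S' w : ℝ) := by positivity
    linarith

theorem taskDirect : TaskDirect := by
  intro mu D κ ν i J hν
  set c : ℝ≥0 := 1 + ∑ k ∈ Finset.range D, κ k with hcd
  have hc : 0 < c := by positivity
  have e3 : pr (ν J) = ν J := by unfold pr; rw [if_pos (hν J)]
  have hψ : Measurable fun lam : ℝ≥0 => ENNReal.ofReal (Real.exp (-((κ i : ℝ) *
      ((mu : ℝ) + lam) / (1 + ∑ k ∈ Finset.range D, (κ k : ℝ))))) := by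
    fun_prop
  have h := lintegral_WW_snd ν J _ hψ
  rw [e3] at h
  rw [← h]
  unfold TT
  refine lintegral_mono fun w => ?_
  dsimp only
  refine ENNReal.ofReal_le_ofReal (Real.exp_le_exp.mpr (neg_le_neg ?_))
  have h1 := (taskSelB (mu + (w J).2) c κ (((Finset.range D).erase J).erase i) w hc).2.2
  have h2 : ((mu : ℝ) + (w J).2) / (1 + ∑ k ∈ Finset.range D, (κ k : ℝ)) ≤
      (Sel (mu + (w J).2) c κ (((Finset.range D).erase J).erase i) w : ℝ) := by
    have := NNReal.coe_le_coe.mpr h1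
    rw [hcd] at this ⊢
    push_cast at this
    exact this
  rw [mul_div_assoc]
  exact mul_le_mul_of_nonneg_left h2 (κ i).2

end FrogRec
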