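import Pool.Agent.W626.FR.Stms

/-!
# FR-SELB, FR-SELM, FR-SELMEAS: the pressure `Sel`
-/

namespace FrogRec

open MeasureTheory ProbabilityTheory Filter FrogGW
open scoped ENNReal NNReal Classical Topology

namespace H485

/-- The rate after the children with threshold at most `t` have been opened. -/
noncomputable def hS (a : ℝ≥0) (κ : ℕ → ℝ≥0) (s : Finset ℕ) (w : ℕ → ℝ × ℝ≥0) (t : ℝ≥0) : ℝ≥0 :=
  a + ∑ k ∈ s, (if (w k).1 ≤ 1 - Real.exp (-((κ k : ℝ) * (t : ℝ))) then (w k).2 else 0)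

lemma cond_mono (κ t t' : ℝ≥0) (x : ℝ) (h : t ≤ t')
    (hx : x ≤ 1 - Real.exp (-((κ : ℝ) * (t : ℝ)))) :
    x ≤ 1 - Real.exp (-((κ : ℝ) * (t' : ℝ))) := by
  have h1 : Real.exp (-((κ : ℝ) * (t' : ℝ))) ≤ Real.exp (-((κ : ℝ) * (t : ℝ))) := by
    apply Real.exp_le_exp.mpr
    have : (t : ℝ) ≤ t' := by exact_mod_cast h
    have h2 : (κ : ℝ) * (t : ℝ) ≤ κ * t' := mul_le_mul_of_nonneg_left this κ.2
    linarith
  linarith

lemma hS_mono (a : ℝ≥0) (κ : ℕ → ℝ≥0) (s : Finset ℕ) (w : ℕ → ℝ × ℝ≥0) :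
    Monotone (hS a κ s w) := by
  intro t t' h
  unfold hS
  refine add_le_add le_rfl (Finset.sum_le_sum fun k _ => ?_)
  by_cases h1 : (w k).1 ≤ 1 - Real.exp (-((κ k : ℝ) * (t : ℝ)))
  · rw [if_pos h1, if_pos (cond_mono _ _ _ _ h h1)]
  · rw [if_neg h1]; exact bot_le

lemma hS_le (a : ℝ≥0) (κ : ℕ → ℝ≥0) (s : Finset ℕ) (w : ℕ → ℝ × ℝ≥0) (t : ℝ≥0) :
    hS a κ s w t ≤ a + ∑ k ∈ s, (w k).2 := by
  unfold hS
  refine add_le_add le_rfl (Finset.sum_le_sum fun k _ => ?_)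
  split_ifs
  · exact le_rfl
  · exact bot_le

lemma Sel_eq (a c : ℝ≥0) (κ : ℕ → ℝ≥0) (s : Finset ℕ) (w : ℕ → ℝ × ℝ≥0) :
    Sel a c κ s w = sInf {t : ℝ≥0 | hS a κ s w t ≤ c * t} := rfl

lemma Sel_nonempty (a c : ℝ≥0) (κ : ℕ → ℝ≥0) (s : Finset ℕ) (w : ℕ → ℝ × ℝ≥0) (hc : 0 < c) :
    {t : ℝ≥0 | hS a κ s w t ≤ c * t}.Nonempty := by
  refine ⟨(a + ∑ k ∈ s, (w k).2) / c, ?_⟩
  simp only [Set.mem_ofPred_eq]
  rw [mul_div_cancel₀ _ hc.ne']
  exact hS_le _ _ _ _ _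

lemma Sel_min (a c : ℝ≥0) (κ : ℕ → ℝ≥0) (s : Finset ℕ) (w : ℕ → ℝ × ℝ≥0) (t : ℝ≥0)
    (h : hS a κ s w t ≤ c * t) : Sel a c κ s w ≤ t :=
  csInf_le (OrderBot.bddBelow _) h

lemma Sel_mem (a c : ℝ≥0) (κ : ℕ → ℝ≥0) (s : Finset ℕ) (w : ℕ → ℝ × ℝ≥0) (hc : 0 < c) :
    hS a κ s w (Sel a c κ s w) ≤ c * Sel a c κ s w := by
  by_contra hn
  push Not at hn
  have hcl : Sel a c κ s w ∈ closure {t : ℝ≥0 | hS a κ s w t ≤ c * t} :=
    csInf_mem_closure (Sel_nonempty a c κ s w hc) (OrderBot.bddBelow _)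
  rw [mem_closure_iff_frequently] at hcl
  have hev : ∀ᶠ t in 𝓝 (Sel a c κ s w), c * t < hS a κ s w (Sel a c κ s w) := by
    have hcont : Continuous fun t : ℝ≥0 => c * t := by fun_prop
    exact hcont.continuousAt.eventually_lt continuousAt_const hn
  obtain ⟨t, ht, ht2⟩ := (hcl.and_eventually hev).exists
  have h1 : Sel a c κ s w ≤ t := Sel_min a c κ s w t ht
  have h2 := hS_mono a κ s w h1
  exact absurd (lt_of_lt_of_le ht2 (h2.trans ht)) (lt_irrefl _)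

lemma Sel_fix (a c : ℝ≥0) (κ : ℕ → ℝ≥0) (s : Finset ℕ) (w : ℕ → ℝ × ℝ≥0) (hc : 0 < c) :
    hS a κ s w (Sel a c κ s w) = c * Sel a c κ s w := by
  refine le_antisymm (Sel_mem a c κ s w hc) ?_
  have h1 := Sel_mem a c κ s w hc
  set t := hS a κ s w (Sel a c κ s w) / c with ht
  have h2 : t ≤ Sel a c κ s w := by
    rw [ht]
    exact (div_le_iff₀' hc).mpr h1
  have h3 : hS a κ s w t ≤ c * t := by
    refine (hS_mono a κ s w h2).trans ?_
    rw [ht, mul_div_cancel₀ _ hc.ne']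
  have h4 := Sel_min a c κ s w t h3
  calc c * Sel a c κ s w ≤ c * t := mul_le_mul_right h4 _
    _ = _ := by rw [ht, mul_div_cancel₀ _ hc.ne']

end H485

open H485

theorem taskSelB : TaskSelB := by
  intro a c κ s w hc
  refine ⟨Sel_fix a c κ s w hc, fun t ht => Sel_min a c κ s w t ht, ?_⟩
  have h := Sel_fix a c κ s w hc
  have h1 : a ≤ c * Sel a c κ s w := by
    rw [← h]; unfold hS; exact le_self_add
  exact (div_le_iff₀' hc).mpr h1

theorem taskSelM : TaskSelM := by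
  have hmono : ∀ (a a' c : ℝ≥0) (κ : ℕ → ℝ≥0) (s s' : Finset ℕ) (w w' : ℕ → ℝ × ℝ≥0), 0 < c →
      a ≤ a' → s ⊆ s' → (∀ k ∈ s, (w k).1 = (w' k).1 ∧ (w k).2 ≤ (w' k).2) →
      Sel a c κ s w ≤ Sel a' c κ s' w' := by
    intro a a' c κ s s' w w' hc ha hs hw
    refine Sel_min a c κ s w _ ?_
    refine le_trans ?_ (Sel_mem a' c κ s' w' hc)
    unfold hS
    refine add_le_add ha ?_
    refine le_trans (Finset.sum_le_sum fun k hk => ?_) (Finset.sum_le_sum_of_subset hs)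
    rw [(hw k hk).1]
    split_ifs
    · exact (hw k hk).2
    · exact le_rfl
  have hleave : ∀ (a c : ℝ≥0) (κ : ℕ → ℝ≥0) (s : Finset ℕ) (w : ℕ → ℝ × ℝ≥0) (k : ℕ), 0 < c →
      k ∈ s → ¬ (w k).1 ≤ 1 - Real.exp (-((κ k : ℝ) * (Sel a c κ (s.erase k) w : ℝ))) →
      Sel a c κ s w = Sel a c κ (s.erase k) w := by
    intro a c κ s w k hc hk hn
    refine le_antisymm ?_ (hmono a a c κ (s.erase k) s w w hc le_rfl (Finset.erase_subset _ _)
      fun k _ => ⟨rfl, le_rfl⟩)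
    refine Sel_min a c κ s w _ ?_
    refine le_trans ?_ (Sel_mem a c κ (s.erase k) w hc)
    unfold hS
    rw [← Finset.add_sum_erase _ _ hk, if_neg hn, zero_add]
  have hsub : ∀ (a c : ℝ≥0) (κ : ℕ → ℝ≥0) (s : Finset ℕ) (w : ℕ → ℝ × ℝ≥0) (k : ℕ), 0 < c →
      k ∈ s → ((w k).1 ≤ 1 - Real.exp (-((κ k : ℝ) * (Sel a c κ s w : ℝ))) ↔
      (w k).1 ≤ 1 - Real.exp (-((κ k : ℝ) * (Sel a c κ (s.erase k) w : ℝ)))) := by
    intro a c κ s w k hc hk
    constructor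
    · intro h
      by_contra hn
      rw [hleave a c κ s w k hc hk hn] at h
      exact hn h
    · intro h
      exact cond_mono _ _ _ _ (hmono a a c κ (s.erase k) s w w hc le_rfl
        (Finset.erase_subset _ _) fun k _ => ⟨rfl, le_rfl⟩) h
  refine ⟨hmono, hsub, ?_⟩
  intro a c κ s w k hc hk hn
  refine hleave a c κ s w k hc hk ?_
  rwa [← hsub a c κ s w k hc hk]

theorem taskSelMeas : TaskSelMeas := by
  intro c κ s hc
  set tU : Finset ℕ → ℝ≥0 × (ℕ → ℝ × ℝ≥0) → ℝ≥0 := fun U q => (q.1 + ∑ k ∈ U, (q.2 k).2) / c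
    with htU
  have htm : ∀ U, Measurable (tU U) := by
    intro U
    simp only [htU]
    have h1 : Measurable fun q : ℝ≥0 × (ℕ → ℝ × ℝ≥0) => ∑ k ∈ U, (q.2 k).2 := by
      refine Finset.measurable_fun_sum _ fun k _ => ?_
      fun_prop
    exact (measurable_fst.add h1).div_const c
  set f : Finset ℕ → ℝ≥0 × (ℕ → ℝ × ℝ≥0) → ℝ≥0 := fun U q =>
    if ∀ k ∈ s \ U, 1 - Real.exp (-((κ k : ℝ) * (tU U q : ℝ))) < (q.2 k).1 then tU U q
      else tU s q with hf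
  have hfm : ∀ U, Measurable (f U) := by
    intro U
    simp only [hf]
    refine Measurable.ite ?_ (htm U) (htm s)
    have : {q : ℝ≥0 × (ℕ → ℝ × ℝ≥0) | ∀ k ∈ s \ U,
        1 - Real.exp (-((κ k : ℝ) * (tU U q : ℝ))) < (q.2 k).1} =
        ⋂ k ∈ s \ U, {q | 1 - Real.exp (-((κ k : ℝ) * (tU U q : ℝ))) < (q.2 k).1} := by
      ext q; simp
    rw [this]
    refine Finset.measurableSet_biInter _ fun k _ => ?_
    apply measurableSet_lt
    · have h' : Measurable fun q => (tU U q : ℝ) := (htm U).coe_nnreal_real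
      fun_prop
    · fun_prop
  have hne : s.powerset.Nonempty := ⟨s, Finset.mem_powerset_self s⟩
  have heq : (fun q : ℝ≥0 × (ℕ → ℝ × ℝ≥0) => Sel q.1 c κ s q.2) = s.powerset.inf' hne f := by
    funext q
    rw [Finset.inf'_apply]
    have hle : ∀ U ⊆ s, (∀ k ∈ s \ U, 1 - Real.exp (-((κ k : ℝ) * (tU U q : ℝ))) < (q.2 k).1) →
        Sel q.1 c κ s q.2 ≤ tU U q := by
      intro U hU hcd
      refine Sel_min _ _ _ _ _ _ ?_
      have e : c * tU U q = q.1 + ∑ k ∈ U, (q.2 k).2 := by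
        simp only [htU]; rw [mul_div_cancel₀ _ hc.ne']
      rw [e]
      unfold hS
      refine add_le_add le_rfl ?_
      rw [← Finset.sum_sdiff hU]
      have h0 : ∑ k ∈ s \ U, (if (q.2 k).1 ≤ 1 - Real.exp (-((κ k : ℝ) * (tU U q : ℝ)))
          then (q.2 k).2 else 0) = 0 := by
        refine Finset.sum_eq_zero fun k hk => ?_
        rw [if_neg (not_le.mpr (hcd k hk))]
      rw [h0, zero_add]
      refine Finset.sum_le_sum fun k _ => ?_
      split_ifs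
      · exact le_rfl
      · exact bot_le
    refine le_antisymm ?_ ?_
    · refine Finset.le_inf' _ _ fun U hU => ?_
      simp only [hf]
      split_ifs with hcd
      · exact hle U (Finset.mem_powerset.mp hU) hcd
      · exact hle s (Finset.Subset.refl s) (by simp)
    · set S := Sel q.1 c κ s q.2 with hSd
      set U := s.filter fun k => (q.2 k).1 ≤ 1 - Real.exp (-((κ k : ℝ) * (S : ℝ))) with hU
      have htS : tU U q = S := by
        have h := Sel_fix q.1 c κ s q.2 hc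
        rw [← hSd] at h
        unfold hS at h
        rw [← Finset.sum_filter] at h
        simp only [htU]
        rw [← hU] at h
        rw [h, mul_div_cancel_left₀ _ hc.ne']
      refine Finset.inf'_le_of_le _ (Finset.mem_powerset.mpr (Finset.filter_subset _ _)) ?_
        (b := U)
      simp only [hf]
      rw [if_pos, htS]
      intro k hk
      rw [htS]
      rw [Finset.mem_sdiff, hU, Finset.mem_filter] at hk
      by_contra hn
      exact hk.2 ⟨hk.1, not_lt.mp hn⟩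
  rw [heq]
  exact Finset.inf'_induction hne f (fun _f hf _g hg => hf.inf hg) fun U _ => hfm U

end FrogRec
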