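import Pool.Agent.W626.FR.Stms

/-!
# FR-STAR: convexity inequality for the pressure at one vertex
-/

namespace FrogRec

open MeasureTheory ProbabilityTheory Filter FrogGW
open scoped ENNReal NNReal Classical Topology

namespace H485

/-- Jensen for `r ↦ ((1 + r)⁻¹)^j`. -/
lemma jensen (j : ℕ) (s : Finset ℕ) (wt r : ℕ → ℝ≥0) (h1 : ∑ k ∈ s, wt k = 1) :
    ((1 + ∑ k ∈ s, wt k * r k)⁻¹) ^ j ≤ ∑ k ∈ s, wt k * ((1 + r k)⁻¹) ^ j := by
  have hc : ConvexOn ℝ (Set.Ioi (0 : ℝ)) (fun x => x ^ (-(j : ℤ))) := convexOn_zpow _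
  have h := hc.map_sum_le (t := s) (w := fun k => (wt k : ℝ)) (p := fun k => (1 + (r k : ℝ)))
    (fun k _ => (wt k).2) (by exact_mod_cast h1) (fun k _ => by
      have : (0 : ℝ) ≤ r k := (r k).2
      simp only [Set.mem_Ioi]; linarith)
  simp only [smul_eq_mul, zpow_neg, zpow_natCast] at h
  have e1 : ∑ k ∈ s, (wt k : ℝ) * (1 + (r k : ℝ)) = 1 + ∑ k ∈ s, (wt k : ℝ) * (r k : ℝ) := by
    simp only [mul_add, mul_one, Finset.sum_add_distrib]
    congr 1
    exact_mod_cast h1
  rw [e1] at h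
  have : (((1 + ∑ k ∈ s, wt k * r k)⁻¹) ^ j : ℝ≥0) ≤ (∑ k ∈ s, wt k * ((1 + r k)⁻¹) ^ j : ℝ≥0) := by
    rw [← NNReal.coe_le_coe]
    push_cast
    simpa only [inv_pow] using h
  exact this

lemma gg_le_one (M : ℝ≥0) (j : ℕ) (κ lam : ℝ≥0) : gg M j κ lam ≤ 1 := by
  unfold gg
  refine pow_le_one₀ (by positivity) ?_
  exact inv_le_one_of_one_le₀ (by simp)

lemma measurable_gg (M : ℝ≥0) (j : ℕ) (κ : ℝ≥0) : Measurable (gg M j κ) := by
  unfold gg
  fun_prop

lemma meas_Sel (hm : TaskSelMeas) (mu c : ℝ≥0) (κ : ℕ → ℝ≥0) (s : Finset ℕ) (J : ℕ)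
    (hc : 0 < c) : Measurable fun w : ℕ → ℝ × ℝ≥0 => Sel (mu + (w J).2) c κ s w := by
  have h := hm c κ s hc
  have h2 : Measurable fun w : ℕ → ℝ × ℝ≥0 => ((mu + (w J).2, w) : ℝ≥0 × (ℕ → ℝ × ℝ≥0)) := by
    fun_prop
  exact h.comp h2

lemma meas_cond (hm : TaskSelMeas) (mu c : ℝ≥0) (κ : ℕ → ℝ≥0) (s : Finset ℕ) (J k : ℕ)
    (hc : 0 < c) : MeasurableSet {w : ℕ → ℝ × ℝ≥0 |
      (w k).1 ≤ 1 - Real.exp (-((κ k : ℝ) * (Sel (mu + (w J).2) c κ s w : ℝ)))} := by
  have h := meas_Sel hm mu c κ s J hc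
  apply measurableSet_le
  · fun_prop
  · have h' : Measurable fun w : ℕ → ℝ × ℝ≥0 => (Sel (mu + (w J).2) c κ s w : ℝ) :=
      h.coe_nnreal_real
    fun_prop

lemma pos_ae (ν : ℕ → Measure ℝ≥0) (k : ℕ) : ∀ᵐ w ∂(WW ν), 0 < (w k).1 := by
  have h0 : ∀ᵐ x ∂unif, (0 : ℝ) < x := by
    unfold unif
    rw [ae_restrict_iff' measurableSet_Ico]
    have : ∀ᵐ x ∂(volume : Measure ℝ), x ≠ 0 := by
      simp [ae_iff]
    filter_upwards [this] with x hx hx2
    exact lt_of_le_of_ne hx2.1 (Ne.symm hx)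
  have h1 : ∀ᵐ q ∂(unif.prod (pr (ν k))), (0 : ℝ) < q.1 :=
    Measure.quasiMeasurePreserving_fst.ae h0
  have h2 := measurePreserving_eval_infinitePi (fun k => unif.prod (pr (ν k))) k
  exact h2.quasiMeasurePreserving.ae h1

end H485

open H485 in
theorem taskStar (hB : TaskSelB) (hm : TaskSelMeas) (hL : TaskLeave) : TaskStar := by
  intro M mu j D κ ν hM _ hν hK
  set K : ℝ≥0 := ∑ k ∈ Finset.range D, κ k with hKdef
  have hKpos : 0 < K := pos_iff_ne_zero.mpr hK
  have hc : 0 < 1 + K := by positivity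
  have hw1 : ∑ k ∈ Finset.range D, κ k / K = 1 := by
    rw [← Finset.sum_div, ← hKdef, div_self hK]
  -- the integral over `star`
  have hstar : ∫⁻ lam, (gg M j (K / (1 + K)) lam : ℝ≥0∞) ∂(star mu D κ ν) =
      ∑ J ∈ Finset.range D, ((κ J / K : ℝ≥0) : ℝ≥0∞) *
        ∫⁻ w, (gg M j (K / (1 + K)) (Sel (mu + (w J).2) (1 + K) κ
          ((Finset.range D).erase J) w) : ℝ≥0∞) ∂(WW ν) := by
    unfold star
    rw [if_neg hK]
    rw [lintegral_finsetSum_measure]
    refine Finset.sum_congr rfl fun J _ => ?_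
    rw [lintegral_smul_measure, lintegral_map, smul_eq_mul]
    · exact (measurable_gg _ _ _).coe_nnreal_ennreal
    · exact meas_Sel hm mu (1 + K) κ _ J hc
  rw [hstar]
  set A : ℕ → ℝ≥0∞ := fun k =>
    ∫⁻ lam, (gg M j 1 (lam / κ k + mu / K) : ℝ≥0∞) ∂(ν k) with hA
  -- bound for one `J`
  have key : ∀ J ∈ Finset.range D, κ J ≠ 0 →
      ∫⁻ w, (gg M j (K / (1 + K)) (Sel (mu + (w J).2) (1 + K) κ
          ((Finset.range D).erase J) w) : ℝ≥0∞) ∂(WW ν) ≤
      ∑ k ∈ Finset.range D, ((κ k / K : ℝ≥0) : ℝ≥0∞) *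
        (A k + if k = J then 0 else TT mu D κ ν k J) := by
    intro J hJ hκJ
    -- conditions
    set S : (ℕ → ℝ × ℝ≥0) → ℝ≥0 := fun w => Sel (mu + (w J).2) (1 + K) κ
          ((Finset.range D).erase J) w with hS
    have hpt : ∀ᵐ w ∂(WW ν), (gg M j (K / (1 + K)) (S w) : ℝ≥0∞) ≤
        ∑ k ∈ Finset.range D, ((κ k / K : ℝ≥0) : ℝ≥0∞) *
          (if k = J then (gg M j 1 ((w k).2 / κ k + mu / K) : ℝ≥0∞) else
            ((if (w k).1 ≤ 1 - Real.exp (-((κ k : ℝ) * (S w : ℝ)))
              then (gg M j 1 ((w k).2 / κ k + mu / K) : ℝ≥0∞) else 0) +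
             (if (w k).1 ≤ 1 - Real.exp (-((κ k : ℝ) * (S w : ℝ))) then 0 else 1))) := by
      have hpos : ∀ᵐ w ∂(WW ν), ∀ k, 0 < (w k).1 := ae_all_iff.mpr fun k => pos_ae ν k
      filter_upwards [hpos] with w hw
      set l : ℕ → ℝ≥0 := fun k => if k = J then (w k).2 else
        if (w k).1 ≤ 1 - Real.exp (-((κ k : ℝ) * (S w : ℝ))) then (w k).2 else 0 with hl
      have hl0 : ∀ k, κ k = 0 → l k = 0 := by
        intro k hk
        have hkJ : k ≠ J := fun h => hκJ (h ▸ hk)
        simp only [hl, if_neg hkJ]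
        rw [if_neg]
        rw [hk]
        simp only [NNReal.coe_zero, zero_mul, neg_zero, Real.exp_zero, sub_self, not_le]
        exact hw k
      have hsum : mu + ∑ k ∈ Finset.range D, l k = (1 + K) * S w := by
        have h := (hB (mu + (w J).2) (1 + K) κ ((Finset.range D).erase J) w hc).1
        rw [← Finset.add_sum_erase _ _ hJ]
        have e : ∑ k ∈ (Finset.range D).erase J, l k =
            ∑ k ∈ (Finset.range D).erase J, (if (w k).1 ≤ 1 - Real.exp (-((κ k : ℝ) *
              (S w : ℝ))) then (w k).2 else 0) := by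
          refine Finset.sum_congr rfl fun k hk => ?_
          simp only [hl, if_neg (Finset.ne_of_mem_erase hk)]
        rw [e]
        have e2 : l J = (w J).2 := by simp [hl]
        rw [e2, ← add_assoc]
        exact h
      have harg : S w / ((K / (1 + K)) * M) =
          ∑ k ∈ Finset.range D, (κ k / K) * ((l k / κ k + mu / K) / M) := by
        have e1 : ∀ k ∈ Finset.range D, (κ k / K) * ((l k / κ k + mu / K) / M) =
            l k / (K * M) + (κ k / K) * (mu / (K * M)) := by
          intro k _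
          by_cases hk : κ k = 0
          · rw [hk, hl0 k hk]; simp
          · have hM' : M ≠ 0 := hM.ne'
            field_simp
        rw [Finset.sum_congr rfl e1, Finset.sum_add_distrib, ← Finset.sum_mul, hw1, one_mul,
          ← Finset.sum_div, ← add_div, add_comm (∑ k ∈ Finset.range D, l k) mu, hsum]
        have hM' : M ≠ 0 := hM.ne'
        have : (1 + K) ≠ 0 := hc.ne'
        field_simp
      have hJ2 : gg M j (K / (1 + K)) (S w) ≤
          ∑ k ∈ Finset.range D, (κ k / K) * gg M j 1 (l k / κ k + mu / K) := by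
        unfold gg
        rw [harg]
        simp only [one_mul]
        exact jensen j (Finset.range D) (fun k => κ k / K) (fun k => (l k / κ k + mu / K) / M) hw1
      calc (gg M j (K / (1 + K)) (S w) : ℝ≥0∞)
          ≤ ((∑ k ∈ Finset.range D, (κ k / K) * gg M j 1 (l k / κ k + mu / K) : ℝ≥0) : ℝ≥0∞) :=
            ENNReal.coe_le_coe.mpr hJ2
        _ = ∑ k ∈ Finset.range D, ((κ k / K : ℝ≥0) : ℝ≥0∞) *
              (gg M j 1 (l k / κ k + mu / K) : ℝ≥0∞) := by
            push_cast
            rfl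
        _ ≤ _ := by
            refine Finset.sum_le_sum fun k _ => mul_le_mul_right ?_ _
            by_cases hkJ : k = J
            · simp only [hl, if_pos hkJ]
              exact le_rfl
            · simp only [hl, if_neg hkJ]
              by_cases hcnd : (w k).1 ≤ 1 - Real.exp (-((κ k : ℝ) * (S w : ℝ)))
              · simp only [if_pos hcnd, add_zero]
                exact le_rfl
              · simp only [if_neg hcnd, zero_add]
                exact_mod_cast gg_le_one _ _ _ _
    refine (lintegral_mono_ae hpt).trans ?_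
    have hgm : ∀ k, Measurable fun lam : ℝ≥0 => (gg M j 1 (lam / κ k + mu / K) : ℝ≥0∞) := by
      intro k
      have : Measurable fun lam : ℝ≥0 => lam / κ k + mu / K := by fun_prop
      exact ((measurable_gg M j 1).comp this).coe_nnreal_ennreal
    have hgm2 : ∀ k, Measurable fun w : ℕ → ℝ × ℝ≥0 =>
        (gg M j 1 ((w k).2 / κ k + mu / K) : ℝ≥0∞) := by
      intro k
      have : Measurable fun w : ℕ → ℝ × ℝ≥0 => (w k).2 := by fun_prop
      exact (hgm k).comp this
    have hcm : ∀ k, MeasurableSet {w : ℕ → ℝ × ℝ≥0 |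
        (w k).1 ≤ 1 - Real.exp (-((κ k : ℝ) * (S w : ℝ)))} := fun k =>
      meas_cond hm mu (1 + K) κ _ J k hc
    rw [lintegral_finsetSum]
    swap
    · intro k _
      refine Measurable.const_mul ?_ _
      by_cases hkJ : k = J
      · simp only [if_pos hkJ]; exact hgm2 k
      · simp only [if_neg hkJ]
        exact (Measurable.ite (hcm k) (hgm2 k) measurable_const).add
          (Measurable.ite (hcm k) measurable_const measurable_const)
    refine Finset.sum_le_sum fun k hk => ?_
    by_cases hkJ : k = J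
    · simp only [if_pos hkJ, add_zero]
      rw [lintegral_const_mul _ (hgm2 k)]
      refine mul_le_mul_right ?_ _
      have hev := (measurePreserving_eval_infinitePi (fun k => unif.prod (pr (ν k))) k)
      have e : ∫⁻ w, (gg M j 1 ((w k).2 / κ k + mu / K) : ℝ≥0∞) ∂(WW ν) =
          ∫⁻ q, (gg M j 1 (q.2 / κ k + mu / K) : ℝ≥0∞) ∂(unif.prod (pr (ν k))) := by
        have := hev.lintegral_comp (f := fun q : ℝ × ℝ≥0 =>
          (gg M j 1 (q.2 / κ k + mu / K) : ℝ≥0∞)) ((hgm k).comp measurable_snd)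
        exact this
      rw [e]
      have e2 : ∫⁻ q, (gg M j 1 (q.2 / κ k + mu / K) : ℝ≥0∞) ∂(unif.prod (pr (ν k))) =
          ∫⁻ lam, (gg M j 1 (lam / κ k + mu / K) : ℝ≥0∞) ∂(pr (ν k)) := by
        have := (measurePreserving_snd (μ := unif) (ν := pr (ν k))).lintegral_comp (hgm k)
        exact this
      rw [e2]
      have e3 : pr (ν k) = ν k := by unfold pr; rw [if_pos (hν k)]
      rw [e3]
    · simp only [if_neg hkJ]
      rw [lintegral_const_mul]
      swap
      · exact (Measurable.ite (hcm k) (hgm2 k) measurable_const).add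
          (Measurable.ite (hcm k) measurable_const measurable_const)
      refine mul_le_mul_right ?_ _
      rw [lintegral_add_left (Measurable.ite (hcm k) (hgm2 k) measurable_const)]
      have hkin : k ∈ (Finset.range D).erase J := Finset.mem_erase.mpr ⟨hkJ, hk⟩
      have hJn : J ∉ (Finset.range D).erase J := Finset.notMem_erase _ _
      refine add_le_add ?_ ?_
      · have h := hL.1 mu (1 + K) κ ν ((Finset.range D).erase J) J k
          (fun lam => (gg M j 1 (lam / κ k + mu / K) : ℝ≥0∞)) hc hJn hkin (hgm k)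
        have e3 : pr (ν k) = ν k := by unfold pr; rw [if_pos (hν k)]
        rw [e3] at h
        exact h
      · have h := hL.2 mu (1 + K) κ ν ((Finset.range D).erase J) J k hc hJn hkin
        unfold TT
        rw [← hKdef]
        exact h.le
  -- sum over `J`
  calc ∑ J ∈ Finset.range D, ((κ J / K : ℝ≥0) : ℝ≥0∞) *
        ∫⁻ w, (gg M j (K / (1 + K)) (Sel (mu + (w J).2) (1 + K) κ
          ((Finset.range D).erase J) w) : ℝ≥0∞) ∂(WW ν)
      ≤ ∑ J ∈ Finset.range D, ((κ J / K : ℝ≥0) : ℝ≥0∞) *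
        ∑ k ∈ Finset.range D, ((κ k / K : ℝ≥0) : ℝ≥0∞) *
          (A k + if k = J then 0 else TT mu D κ ν k J) := by
        refine Finset.sum_le_sum fun J hJ => ?_
        by_cases h0 : κ J = 0
        · simp [h0]
        · exact mul_le_mul_right (key J hJ h0) _
    _ = ∑ k ∈ Finset.range D, ((κ k / K : ℝ≥0) : ℝ≥0∞) *
          ∑ J ∈ Finset.range D, ((κ J / K : ℝ≥0) : ℝ≥0∞) *
          (A k + if k = J then 0 else TT mu D κ ν k J) := by
        simp only [Finset.mul_sum]
        rw [Finset.sum_comm]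
        refine Finset.sum_congr rfl fun k _ => Finset.sum_congr rfl fun J _ => ?_
        ring
    _ = _ := by
        refine Finset.sum_congr rfl fun k hk => ?_
        congr 1
        simp only [mul_add, Finset.sum_add_distrib]
        congr 1
        · rw [← Finset.sum_mul]
          have : ∑ J ∈ Finset.range D, ((κ J / K : ℝ≥0) : ℝ≥0∞) = 1 := by
            exact_mod_cast congrArg (fun x : ℝ≥0 => (x : ℝ≥0∞)) hw1
          rw [this, one_mul]
        · rw [← Finset.add_sum_erase _ _ hk]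
          simp only [if_true, mul_zero, zero_add]
          refine Finset.sum_congr rfl fun J hJ => ?_
          rw [if_neg (Finset.ne_of_mem_erase hJ).symm]

end FrogRec
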